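import Pool.Agent.PSV.StmtsS
import Pool.Agent.Helper65_HIK.Hid

/-!
# Squad PSV, row HDP: an admissible polynomial has a root in the ring of integers for a set of
parameters with power saving
-/

set_option autoImplicit false

namespace Pool.Agent.PSV.H31

open Polynomial NumberField Pool.Agent.MTL Pool.Agent.HIK Pool.Agent.PSV

/-- double counting: the pairs `(a, j)` inject by `(a - j, j)` -/
theorem seg_count {K : Type} [Field K] [NumberField K] (S : Set (𝓞 K)) (C X D : ℕ)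
    (hfin : ∀ Y : ℕ, {a : 𝓞 K | house (a : K) ≤ Y}.Finite)
    (hcard : ∀ Y : ℕ, Nat.card {a : 𝓞 K // house (a : K) ≤ Y} ≤
      C * (Y + 1) ^ Module.finrank ℚ K)
    (hS : ∀ a0 : 𝓞 K, house (a0 : K) ≤ 2 * X →
      Nat.card {j : ℕ // j < X ∧ a0 + (j : 𝓞 K) ∈ S} ≤ D) :
    Nat.card {a : 𝓞 K // a ∈ S ∧ house (a : K) ≤ X} * X ≤
      (C * (2 * X + 1) ^ Module.finrank ℚ K) * D := by
  classical
  let B : ℕ → Finset (𝓞 K) := fun Y => (hfin Y).toFinset
  have hB : ∀ (Y : ℕ) (a : 𝓞 K), a ∈ B Y ↔ house (a : K) ≤ Y := fun Y a => by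
    rw [(hfin Y).mem_toFinset]
    rfl
  have hBc : ∀ Y : ℕ, (B Y).card ≤ C * (Y + 1) ^ Module.finrank ℚ K := by
    intro Y
    have h1 := hcard Y
    rwa [Nat.subtype_card (B Y) (hB Y)] at h1
  let F : Finset (𝓞 K) := (B X).filter fun a => a ∈ S
  have hF : Nat.card {a : 𝓞 K // a ∈ S ∧ house (a : K) ≤ X} = F.card := by
    apply Nat.subtype_card
    intro a
    rw [Finset.mem_filter, hB, and_comm]
  let G : 𝓞 K → Finset ℕ := fun b => (Finset.range X).filter fun j : ℕ => b + (j : 𝓞 K) ∈ S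
  have hG : ∀ b, Nat.card {j : ℕ // j < X ∧ b + (j : 𝓞 K) ∈ S} = (G b).card := by
    intro b
    apply Nat.subtype_card
    intro j
    rw [Finset.mem_filter, Finset.mem_range]
  have hcount : F.card * X ≤ ∑ b ∈ B (2 * X), (G b).card := by
    rw [← Finset.card_sigma, ← Finset.card_range X, ← Finset.card_product]
    rw [Finset.card_range X]
    apply Finset.card_le_card_of_injOn
      (fun x : 𝓞 K × ℕ => (⟨x.1 - (x.2 : 𝓞 K), x.2⟩ : (_ : 𝓞 K) × ℕ))
    · intro x hx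
      rw [Finset.mem_coe, Finset.mem_product, Finset.mem_filter, Finset.mem_range, hB] at hx
      rw [Finset.mem_coe, Finset.mem_sigma, hB, Finset.mem_filter, Finset.mem_range]
      refine ⟨?_, hx.2, ?_⟩
      · have h1 : ((x.1 - (x.2 : 𝓞 K) : 𝓞 K) : K) = (x.1 : K) + ((-(x.2 : ℤ) : ℤ) : K) := by
          push_cast
          ring
        have h2 := house_add_le (x.1 : K) ((-(x.2 : ℤ) : ℤ) : K)
        rw [house_intCast] at h2
        have h3 : ((|(-(x.2 : ℤ))| : ℤ) : ℝ) = (x.2 : ℝ) := by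
          rw [abs_neg, Nat.abs_cast]
          push_cast
          rfl
        rw [h3] at h2
        have h4 : (x.2 : ℝ) ≤ (X : ℝ) := by exact_mod_cast hx.2.le
        show house ((x.1 - (x.2 : 𝓞 K) : 𝓞 K) : K) ≤ ((2 * X : ℕ) : ℝ)
        have h5 : house ((x.1 - (x.2 : 𝓞 K) : 𝓞 K) : K) ≤ house (x.1 : K) + (x.2 : ℝ) := by
          rw [h1]
          exact h2
        have h6 : ((2 * X : ℕ) : ℝ) = 2 * (X : ℝ) := by
          push_cast
          rfl
        rw [h6]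
        linarith [hx.1.1]
      · show x.1 - (x.2 : 𝓞 K) + (x.2 : 𝓞 K) ∈ S
        rw [sub_add_cancel]
        exact hx.1.2
    · intro x _ y _ hxy
      have h1 : x.2 = y.2 := congrArg Sigma.snd hxy
      have h2 : x.1 - (x.2 : 𝓞 K) = y.1 - (y.2 : 𝓞 K) := congrArg Sigma.fst hxy
      rw [h1] at h2
      exact Prod.ext (sub_left_injective h2) h1
  have hGle : ∀ b ∈ B (2 * X), (G b).card ≤ D := by
    intro b hb
    rw [← hG b]
    rw [hB] at hb
    push_cast at hb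
    exact hS b hb
  rw [hF]
  calc F.card * X ≤ ∑ b ∈ B (2 * X), (G b).card := hcount
    _ ≤ ∑ _b ∈ B (2 * X), D := Finset.sum_le_sum hGle
    _ = (B (2 * X)).card * D := by rw [Finset.sum_const, smul_eq_mul]
    _ ≤ _ := Nat.mul_le_mul_right _ (hBc (2 * X))

/-- HDP -/
theorem hdp (hC : CntStmt) (hBox : BoxStmt) : HdpStmt := by
  intro K _ _ g hg
  obtain ⟨e, C', R0, he, hR0⟩ := hC K g hg
  obtain ⟨C, hCb⟩ := hBox K
  have hfin : ∀ Y : ℕ, {a : 𝓞 K | house (a : K) ≤ Y}.Finite := fun Y => (hCb Y).1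
  have hcard : ∀ Y : ℕ, Nat.card {a : 𝓞 K // house (a : K) ≤ Y} ≤
      C * (Y + 1) ^ Module.finrank ℚ K := fun Y => (hCb Y).2
  have he0 : (0 : ℝ) < e := by exact_mod_cast he
  refine ⟨1 / (e : ℝ), C * 3 ^ Module.finrank ℚ K * (C' * 2 ^ e) +
    C * 2 ^ Module.finrank ℚ K * R0, by positivity, fun X hX => ?_⟩
  obtain ⟨m, hm⟩ : ∃ m, m = Module.finrank ℚ K := ⟨_, rfl⟩
  rw [← hm] at hcard ⊢
  have hX0 : (0 : ℝ) < X := by exact_mod_cast hX
  have hX1 : (1 : ℝ) ≤ X := by exact_mod_cast hX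
  obtain ⟨R, hR1, hR2⟩ := H65.exR e he X hX
  -- the root of `X`
  obtain ⟨r, hr⟩ : ∃ r : ℝ, r = (X : ℝ) ^ (1 / (e : ℝ)) := ⟨_, rfl⟩
  have hr0 : 0 < r := by rw [hr]; exact Real.rpow_pos_of_pos hX0 _
  have hr1 : 1 ≤ r := by rw [hr]; exact Real.one_le_rpow hX1 (by positivity)
  have hre : r ^ e = X := by
    rw [hr, ← Real.rpow_natCast, ← Real.rpow_mul hX0.le, one_div, inv_mul_cancel₀ he0.ne',
      Real.rpow_one]
  have hRr : (R : ℝ) ≤ r := by
    have h1 : (R : ℝ) ^ e ≤ r ^ e := by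
      rw [hre]
      exact_mod_cast hR2.le
    exact le_of_pow_le_pow_left₀ (by omega) hr0.le h1
  have hrR : r ≤ ((R + 1 : ℕ) : ℝ) := by
    have h1 : r ^ e ≤ ((R + 1 : ℕ) : ℝ) ^ e := by
      rw [hre]
      exact_mod_cast hR1
    exact le_of_pow_le_pow_left₀ (by omega) (Nat.cast_nonneg _) h1
  have hXm : (X : ℝ) ^ ((m : ℝ) - 1 / (e : ℝ)) * r = (X : ℝ) ^ m := by
    rw [hr, ← Real.rpow_add hX0, sub_add_cancel, Real.rpow_natCast]
  have hXp : 0 < (X : ℝ) ^ ((m : ℝ) - 1 / (e : ℝ)) := Real.rpow_pos_of_pos hX0 _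
  by_cases hbig : R0 ≤ R + 1
  · have hseg := seg_count (K := K) {a : 𝓞 K | ∃ y : 𝓞 K, evalEval a y g = 0} C X
      (C' * (R + 1) ^ (e - 1)) hfin (by rw [← hm]; exact hcard) (by
        intro a0 ha0
        have hh : house (a0 : K) ≤ 2 * ((R + 1 : ℕ) : ℝ) ^ e := by
          refine ha0.trans ?_
          have h4 : (X : ℝ) ≤ ((R + 1 : ℕ) : ℝ) ^ e := by exact_mod_cast hR1
          linarith
        have h5 := hR0 (R + 1) hbig a0 hh
        refine le_trans ?_ h5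
        have hfin' : Finite {n : ℕ // n < (R + 1) ^ e ∧ ∃ y : 𝓞 K, evalEval (a0 + n) y g = 0} :=
          Set.Finite.to_subtype ((Set.finite_lt_nat ((R + 1) ^ e)).subset fun n hn => hn.1)
        refine Nat.card_le_card_of_injective
          (fun j => ⟨j.1, lt_of_lt_of_le j.2.1 hR1, j.2.2⟩) ?_
        intro j j' hjj
        exact Subtype.ext (congrArg (fun z => z.1) hjj))
    rw [← hm] at hseg
    obtain ⟨N, hN⟩ : ∃ N, N = Nat.card {a : 𝓞 K // a ∈ {a : 𝓞 K | ∃ y : 𝓞 K, evalEval a y g = 0} ∧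
      house (a : K) ≤ X} := ⟨_, rfl⟩
    rw [← hN] at hseg ⊢
    have h1 : (N : ℝ) * X ≤ (C * (2 * X + 1) ^ m) * (C' * ((R + 1 : ℕ) : ℝ) ^ (e - 1)) := by
      exact_mod_cast hseg
    have h2 : ((2 : ℝ) * X + 1) ^ m ≤ (3 * X) ^ m := by
      apply pow_le_pow_left₀ (by positivity)
      linarith
    have h3 : ((R + 1 : ℕ) : ℝ) ≤ 2 * r := by
      push_cast
      linarith
    have h4 : ((R + 1 : ℕ) : ℝ) ^ (e - 1) ≤ 2 ^ e * r ^ (e - 1) := by
      calc ((R + 1 : ℕ) : ℝ) ^ (e - 1) ≤ (2 * r) ^ (e - 1) :=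
            pow_le_pow_left₀ (Nat.cast_nonneg _) h3 _
        _ = 2 ^ (e - 1) * r ^ (e - 1) := mul_pow _ _ _
        _ ≤ 2 ^ e * r ^ (e - 1) := by
            apply mul_le_mul_of_nonneg_right _ (by positivity)
            exact pow_le_pow_right₀ (by norm_num) (by omega)
    have h5 : r ^ (e - 1) * r = X := by
      rw [← hre, ← pow_succ]
      congr 1
      omega
    have h6 : (N : ℝ) * X ≤ (C * (3 * X) ^ m) * (C' * (2 ^ e * r ^ (e - 1))) := by
      refine h1.trans ?_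
      apply mul_le_mul
      · exact mul_le_mul_of_nonneg_left h2 (Nat.cast_nonneg _)
      · exact mul_le_mul_of_nonneg_left h4 (Nat.cast_nonneg _)
      · positivity
      · positivity
    have h7 : (N : ℝ) * (r ^ (e - 1) * r) ≤
        (C * 3 ^ m * (C' * 2 ^ e) * (X : ℝ) ^ ((m : ℝ) - 1 / (e : ℝ))) * (r ^ (e - 1) * r) := by
      calc (N : ℝ) * (r ^ (e - 1) * r) = N * X := by rw [h5]
        _ ≤ _ := h6
        _ = C * 3 ^ m * (C' * 2 ^ e) * (X : ℝ) ^ m * r ^ (e - 1) := by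
            rw [mul_pow]
            ring
        _ = _ := by
            rw [← hXm]
            ring
    have h8 : (N : ℝ) ≤ C * 3 ^ m * (C' * 2 ^ e) * (X : ℝ) ^ ((m : ℝ) - 1 / (e : ℝ)) :=
      le_of_mul_le_mul_right h7 (by positivity)
    refine h8.trans ?_
    apply mul_le_mul_of_nonneg_right _ hXp.le
    push_cast
    have : (0 : ℝ) ≤ C * 2 ^ m * R0 := by positivity
    linarith
  · have hN : Nat.card {a : 𝓞 K // a ∈ {a : 𝓞 K | ∃ y : 𝓞 K, evalEval a y g = 0} ∧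
        house (a : K) ≤ X} ≤ Nat.card {a : 𝓞 K // house (a : K) ≤ X} := by
      have : Finite {a : 𝓞 K // house (a : K) ≤ X} := (hfin X).to_subtype
      refine Nat.card_le_card_of_injective (fun j => ⟨j.1, j.2.2⟩) ?_
      intro j j' hjj
      exact Subtype.ext (congrArg (fun z => z.1) hjj)
    have hN2 : (Nat.card {a : 𝓞 K // a ∈ {a : 𝓞 K | ∃ y : 𝓞 K, evalEval a y g = 0} ∧
        house (a : K) ≤ X} : ℝ) ≤ C * ((X : ℝ) + 1) ^ m := by
      have := hN.trans (hcard X)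
      exact_mod_cast this
    refine hN2.trans ?_
    have h2 : ((X : ℝ) + 1) ^ m ≤ (2 * X) ^ m := by
      apply pow_le_pow_left₀ (by positivity)
      linarith
    have h3 : r ≤ R0 := by
      refine hrR.trans ?_
      have : R + 1 ≤ R0 := by omega
      exact_mod_cast this
    calc (C : ℝ) * ((X : ℝ) + 1) ^ m ≤ C * (2 * X) ^ m :=
          mul_le_mul_of_nonneg_left h2 (Nat.cast_nonneg _)
      _ = C * 2 ^ m * ((X : ℝ) ^ ((m : ℝ) - 1 / (e : ℝ)) * r) := by
          rw [hXm, mul_pow]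
          ring
      _ ≤ C * 2 ^ m * ((X : ℝ) ^ ((m : ℝ) - 1 / (e : ℝ)) * R0) := by
          apply mul_le_mul_of_nonneg_left _ (by positivity)
          exact mul_le_mul_of_nonneg_left h3 hXp.le
      _ ≤ _ := by
          push_cast
          have h9 : (0 : ℝ) ≤ C * 3 ^ m * (C' * 2 ^ e) * (X : ℝ) ^ ((m : ℝ) - 1 / (e : ℝ)) := by
            positivity
          nlinarith [h9]

end Pool.Agent.PSV.H31
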